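import Mathlib
import Pool.Agent.V11269.SalemExample

/-!
For every Salem number `α` the set `L(α) = {limsup ‖ξ α^n‖ : ξ real}` is not closed.
-/

namespace Pool.Agent.Results.MP_8d213d_nt.SalemNotClosed

open Polynomial Filter Topology

/-- The distance from `x` to the nearest integer. -/
noncomputable def distInt (x : ℝ) : ℝ := |x - round x|

/-- `L(α) = {limsup ‖ξ α^n‖ : ξ real}`. -/
noncomputable def L (α : ℝ) : Set ℝ :=
  {v | ∃ ξ : ℝ, v = limsup (fun n : ℕ => distInt (ξ * α ^ n)) atTop}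

/-- `α` is a Salem number: a real algebraic integer `> 1` all of whose Galois conjugates other than
`α` (complex roots of its minimal polynomial over `ℚ`) have absolute value at most `1`, at least
one of them having absolute value exactly `1`. -/
def IsSalem (α : ℝ) : Prop :=
  1 < α ∧ IsIntegral ℤ α ∧
    (∀ z : ℂ, aeval z (minpoly ℚ α) = 0 → z ≠ (α : ℂ) → ‖z‖ ≤ 1) ∧
    ∃ z : ℂ, aeval z (minpoly ℚ α) = 0 ∧ z ≠ (α : ℂ) ∧ ‖z‖ = 1

lemma isSalem_iff (α : ℝ) : IsSalem α ↔ V11269.Salem.IsSalem α := by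
  constructor
  · rintro ⟨h1, h2, h3, z, h4, -, h5⟩
    exact ⟨h1, h2, h3, z, h4, h5⟩
  · rintro ⟨h1, h2, h3, z, h4, h5⟩
    refine ⟨h1, h2, h3, z, h4, ?_, h5⟩
    rintro rfl
    rw [Complex.norm_real, Real.norm_eq_abs, abs_of_pos (by linarith)] at h5
    linarith

/-- Salem numbers exist, and for every Salem number `α` the set `L(α)` is not closed. -/
theorem result : (∃ α : ℝ, IsSalem α) ∧ ∀ α : ℝ, IsSalem α → ¬ IsClosed (L α) :=
  ⟨⟨_, (isSalem_iff _).2 V11269.Salem.isSalem_α₀⟩, fun α hα =>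
    V11269.Salem.not_closed ((isSalem_iff α).1 hα)⟩

end Pool.Agent.Results.MP_8d213d_nt.SalemNotClosed
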